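import Pool.Agent.Helper16.Buoy.Stmt

/-!
# A convex body on which a function is quadratic on all lines is an ellipsoid
(project MP_a2630c_FU, end of the proof)

`f` is a function on the convex body `K`, positive in the interior, zero on the boundary, and its
second differences `f (y + z) + f (y - z) - 2 f y = - q z` depend only on `z`. Then `f` is a
quadratic polynomial and `K` is an ellipsoid.
-/

open MeasureTheory Set Metric Filter Topology
open scoped RealInnerProductSpace
open Pool.Agent.Helper16.Buoy (E IsEllipsoid)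

namespace Pool.Agent.Helper43.FU

section Abstract

variable {V : Type*} [NormedAddCommGroup V] [NormedSpace ℝ V]

/-- second differences independent of the base point -/
structure SD (K : Set V) (f q : V → ℝ) : Prop where
  hom : ∀ (t : ℝ) (z : V), q (t • z) = t ^ 2 * q z
  sd : ∀ y z, y ∈ K → y + z ∈ K → y - z ∈ K → f (y + z) + f (y - z) - 2 * f y = - q z

variable {K : Set V} {f q : V → ℝ} {y0 : V} {r : ℝ}

theorem SD.zero (h : SD K f q) : q 0 = 0 := by
  have := h.hom 0 0
  simpa using this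

theorem SD.neg (h : SD K f q) (z : V) : q (-z) = q z := by
  have := h.hom (-1) z
  simpa using this

omit [NormedSpace ℝ V] in
theorem mem_of_norm {z : V} (hB : closedBall y0 r ⊆ K) (hz : ‖z‖ ≤ r) : y0 + z ∈ K :=
  hB (by rw [mem_closedBall, dist_eq_norm, add_sub_cancel_left]; exact hz)

theorem SD.key (h : SD K f q) (hB : closedBall y0 r ⊆ K) {z w : V} (hz : ‖z‖ ≤ r / 2)
    (hw : ‖w‖ ≤ r / 2) : f (y0 + (z + w)) - f (y0 + z) - f (y0 + w) + f y0 =
      (q (z - w) - q z - q w) / 2 := by
  have hzw : ‖z + w‖ ≤ r := (norm_add_le _ _).trans (by linarith)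
  have hzw' : ‖z - w‖ ≤ r := (norm_sub_le _ _).trans (by linarith)
  have hwz' : ‖w - z‖ ≤ r := (norm_sub_le _ _).trans (by linarith)
  have hr0 : 0 ≤ r := by linarith [norm_nonneg z]
  have m0 : y0 ∈ K := by
    have := mem_of_norm (z := 0) hB (by rw [norm_zero]; exact hr0)
    rwa [add_zero] at this
  have mz := mem_of_norm hB (hz.trans (by linarith) : ‖z‖ ≤ r)
  have mw := mem_of_norm hB (hw.trans (by linarith) : ‖w‖ ≤ r)
  have mzw := mem_of_norm hB hzw
  have mzw' := mem_of_norm hB hzw'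
  have mwz' := mem_of_norm hB hwz'
  have e1 := h.sd (y0 + z) w mz (by rw [add_assoc]; exact mzw)
    (by rw [add_sub_assoc]; exact mzw')
  have e2 := h.sd (y0 + w) z mw (by rw [add_assoc, add_comm w z]; exact mzw)
    (by rw [add_sub_assoc]; exact mwz')
  have e3 := h.sd y0 (z - w) m0 mzw' (by rw [sub_sub_eq_add_sub, add_sub_assoc]; exact mwz')
  rw [add_assoc, show y0 + z - w = y0 + (z - w) from add_sub_assoc _ _ _] at e1
  rw [add_assoc, show y0 + w - z = y0 + (w - z) from add_sub_assoc _ _ _, add_comm w z] at e2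
  rw [show y0 - (z - w) = y0 + (w - z) by abel] at e3
  linarith

/-- the parallelogram law for small vectors -/
theorem SD.par0 (h : SD K f q) (hB : closedBall y0 r ⊆ K) {z w : V} (hz : ‖z‖ ≤ r / 2)
    (hw : ‖w‖ ≤ r / 2) : q (z + w) + q (z - w) = 2 * q z + 2 * q w := by
  have hr0 : 0 ≤ r := by linarith [norm_nonneg z]
  have m0 : y0 ∈ K := by
    have := mem_of_norm (z := 0) hB (by rw [norm_zero]; exact hr0)
    rwa [add_zero] at this
  have k1 := h.key hB hz hw
  have k2 := h.key hB (z := -z) (w := -w) (by rwa [norm_neg]) (by rwa [norm_neg])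
  have hzw : ‖z + w‖ ≤ r := (norm_add_le _ _).trans (by linarith)
  have e1 := h.sd y0 (z + w) m0 (mem_of_norm hB hzw)
    (by rw [sub_eq_add_neg]; exact mem_of_norm hB (by rw [norm_neg]; exact hzw))
  have e2 := h.sd y0 z m0 (mem_of_norm hB (by linarith))
    (by rw [sub_eq_add_neg]; exact mem_of_norm hB (by rw [norm_neg]; linarith))
  have e3 := h.sd y0 w m0 (mem_of_norm hB (by linarith))
    (by rw [sub_eq_add_neg]; exact mem_of_norm hB (by rw [norm_neg]; linarith))
  rw [show -z + -w = -(z + w) by abel, show -z - -w = -(z - w) by abel, h.neg, h.neg, h.neg,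
    ← sub_eq_add_neg, ← sub_eq_add_neg, ← sub_eq_add_neg] at k2
  linarith

/-- a scaling factor making both vectors small -/
theorem exists_scale (hr : 0 < r) (z w : V) : ∃ t : ℝ, 0 < t ∧ ‖t • z‖ ≤ r ∧ ‖t • w‖ ≤ r := by
  refine ⟨r / (‖z‖ + ‖w‖ + 1), by positivity, ?_, ?_⟩
  · rw [norm_smul, Real.norm_of_nonneg (by positivity), div_mul_eq_mul_div, div_le_iff₀ (by positivity)]
    nlinarith [norm_nonneg z, norm_nonneg w]
  · rw [norm_smul, Real.norm_of_nonneg (by positivity), div_mul_eq_mul_div, div_le_iff₀ (by positivity)]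
    nlinarith [norm_nonneg z, norm_nonneg w]

theorem SD.par (h : SD K f q) (hr : 0 < r) (hB : closedBall y0 r ⊆ K) (z w : V) :
    q (z + w) + q (z - w) = 2 * q z + 2 * q w := by
  obtain ⟨t, ht, h1, h2⟩ := exists_scale (half_pos hr) z w
  have := h.par0 hB h1 h2
  rw [← smul_add, ← smul_sub, h.hom, h.hom, h.hom, h.hom] at this
  have ht2 : t ^ 2 ≠ 0 := by positivity
  have : t ^ 2 * (q (z + w) + q (z - w)) = t ^ 2 * (2 * q z + 2 * q w) := by linarith
  exact mul_left_cancel₀ ht2 this

theorem SD.cont (h : SD K f q) (hr : 0 < r) (hB : closedBall y0 r ⊆ K)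
    (hf : ContinuousOn f (closedBall y0 r)) : Continuous q := by
  have m0 : y0 ∈ K := hB (mem_closedBall_self hr.le)
  rw [continuous_iff_continuousAt]
  intro z
  set t : ℝ := r / (‖z‖ + 2) with ht
  have hz2 : (0:ℝ) < ‖z‖ + 2 := by positivity
  have htp : 0 < t := by positivity
  -- near `z`, `q w = t⁻² (2 f y0 - f (y0 + t w) - f (y0 - t w))`
  have hsm : ∀ w ∈ ball z 1, ‖t • w‖ ≤ r := by
    intro w hw
    have h1 : ‖w‖ ≤ ‖z‖ + 1 := by
      rw [mem_ball, dist_eq_norm] at hw
      have := norm_add_le (w - z) z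
      rw [sub_add_cancel] at this
      linarith
    rw [norm_smul, Real.norm_of_nonneg htp.le, ht, div_mul_eq_mul_div, div_le_iff₀ hz2]
    nlinarith
  have heq : ∀ w ∈ ball z 1, q w = (t ^ 2)⁻¹ * (2 * f y0 - f (y0 + t • w) - f (y0 - t • w)) := by
    intro w hw
    have := h.sd y0 (t • w) m0 (mem_of_norm hB (hsm w hw))
      (by rw [sub_eq_add_neg]; exact mem_of_norm hB (by rw [norm_neg]; exact hsm w hw))
    rw [h.hom] at this
    have ht2 : t ^ 2 ≠ 0 := by positivity
    rw [eq_inv_mul_iff_mul_eq₀ ht2]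
    linarith
  have hc : ContinuousOn (fun w => (t ^ 2)⁻¹ * (2 * f y0 - f (y0 + t • w) - f (y0 - t • w)))
      (ball z 1) := by
    refine continuousOn_const.mul ((continuousOn_const.sub ?_).sub ?_)
    · refine hf.comp (by fun_prop) ?_
      intro w hw
      rw [mem_closedBall, dist_eq_norm, add_sub_cancel_left]
      exact hsm w hw
    · refine hf.comp (by fun_prop) ?_
      intro w hw
      rw [mem_closedBall, dist_eq_norm, sub_sub_cancel_left, norm_neg]
      exact hsm w hw
  have hc2 : ContinuousOn q (ball z 1) := hc.congr heq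
  exact hc2.continuousAt (ball_mem_nhds z one_pos)

/-- the polar form -/
noncomputable def BB (q : V → ℝ) (z w : V) : ℝ := (q (z + w) - q (z - w)) / 4

theorem SD.BB_add (h : SD K f q) (hr : 0 < r) (hB : closedBall y0 r ⊆ K) (z z' w : V) :
    BB q (z + z') w = BB q z w + BB q z' w := by
  have p1 := h.par hr hB (z + w) z'
  have p2 := h.par hr hB (z' + w) z
  have p3 := h.par hr hB (z - w) z'
  have p4 := h.par hr hB (z' - w) z
  have n1 : q (z' - w - z) = q (z + w - z') := by
    rw [← h.neg]; congr 1; abel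
  have n2 : q (z - w - z') = q (z' + w - z) := by
    rw [← h.neg]; congr 1; abel
  rw [show z + w + z' = z + z' + w by abel] at p1
  rw [show z' + w + z = z + z' + w by abel] at p2
  rw [show z - w + z' = z + z' - w by abel] at p3
  rw [show z' - w + z = z + z' - w by abel] at p4
  unfold BB
  linarith

theorem SD.BB_symm (h : SD K f q) (z w : V) : BB q z w = BB q w z := by
  unfold BB
  rw [add_comm z w, ← h.neg (z - w), neg_sub]

theorem SD.BB_self (h : SD K f q) (z : V) : BB q z z = q z := by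
  unfold BB
  rw [sub_self, h.zero, ← two_smul ℝ z, h.hom]
  ring

/-- the polar form as a linear map -/
theorem SD.exists_bilin (h : SD K f q) (hr : 0 < r) (hB : closedBall y0 r ⊆ K)
    (hf : ContinuousOn f (closedBall y0 r)) :
    ∃ B : LinearMap.BilinForm ℝ V, (∀ z, B z z = q z) ∧ ∀ z w, B z w = B w z := by
  have hc := h.cont hr hB hf
  let A : V → V →+ ℝ := fun w =>
    { toFun := fun z => BB q z w
      map_zero' := by
        unfold BB
        rw [zero_add, zero_sub, h.neg, sub_self, zero_div]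
      map_add' := fun z z' => h.BB_add hr hB z z' w }
  have hA : ∀ w, Continuous (A w) := by
    intro w
    show Continuous (fun z => (q (z + w) - q (z - w)) / 4)
    fun_prop
  let L : V → V →L[ℝ] ℝ := fun w => (A w).toRealLinearMap (hA w)
  have hL : ∀ w z, L w z = BB q z w := fun w z => rfl
  let B : LinearMap.BilinForm ℝ V := LinearMap.mk₂ ℝ (fun w z => BB q z w)
    (fun w w' z => by
      rw [h.BB_symm z, h.BB_add hr hB, h.BB_symm w, h.BB_symm w'])
    (fun c w z => by
      rw [h.BB_symm z (c • w), ← hL, map_smul, hL, h.BB_symm w z])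
    (fun w z z' => h.BB_add hr hB z z' w)
    (fun c w z => by rw [← hL, map_smul, hL])
  exact ⟨B, fun z => h.BB_self z, fun z w => h.BB_symm w z⟩

/-- the linear part -/
theorem SD.exists_lin (h : SD K f q) (hr : 0 < r) (hB : closedBall y0 r ⊆ K)
    (hf : ContinuousOn f (closedBall y0 r)) :
    ∃ ℓ : V →L[ℝ] ℝ, ∀ z, ‖z‖ ≤ r / 2 → f (y0 + z) = f y0 + ℓ z - q z / 2 := by
  have hc := h.cont hr hB hf
  set g : V → ℝ := fun z => f (y0 + z) - f y0 + q z / 2 with hg
  have gadd : ∀ z w, ‖z‖ ≤ r / 2 → ‖w‖ ≤ r / 2 → g (z + w) = g z + g w := by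
    intro z w hz hw
    have k := h.key hB hz hw
    have p := h.par hr hB z w
    simp only [hg]
    linarith
  have gcont : ContinuousOn g (closedBall 0 r) := by
    refine ContinuousOn.add (ContinuousOn.sub ?_ continuousOn_const) (by fun_prop)
    refine hf.comp (by fun_prop) ?_
    intro z hz
    rw [mem_closedBall, dist_eq_norm, add_sub_cancel_left]
    simpa using hz
  have ghalf : ∀ z, ‖z‖ ≤ r → g z = 2 * g ((1/2 : ℝ) • z) := by
    intro z hz
    have h2 : ‖(1/2 : ℝ) • z‖ ≤ r / 2 := by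
      rw [norm_smul, Real.norm_of_nonneg (by norm_num)]; linarith
    have := gadd _ _ h2 h2
    rw [← add_smul] at this
    norm_num at this
    rw [this]; norm_num; ring
  have gpow : ∀ (k : ℕ) z, ‖z‖ ≤ r → g z = 2 ^ k * g ((1/2 : ℝ) ^ k • z) := by
    intro k
    induction k with
    | zero => intro z _; simp
    | succ k ih =>
      intro z hz
      have hz2 : ‖(1/2 : ℝ) ^ k • z‖ ≤ r := by
        rw [norm_smul, Real.norm_of_nonneg (by positivity)]
        have : (1/2 : ℝ) ^ k ≤ 1 := pow_le_one₀ (by norm_num) (by norm_num)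
        nlinarith [norm_nonneg z]
      rw [ih z hz, ghalf _ hz2, smul_smul, ← pow_succ']
      ring
  have hex : ∀ z : V, ∃ k : ℕ, ‖(1/2 : ℝ) ^ k • z‖ ≤ r / 2 := by
    intro z
    obtain ⟨k, hk⟩ := exists_pow_lt_of_lt_one (show (0:ℝ) < (r / 2) / (‖z‖ + 1) by positivity)
      (show (1/2 : ℝ) < 1 by norm_num)
    refine ⟨k, ?_⟩
    rw [norm_smul, Real.norm_of_nonneg (by positivity)]
    rw [lt_div_iff₀ (by positivity)] at hk
    nlinarith [norm_nonneg z, show (0:ℝ) < (1/2 : ℝ) ^ k by positivity]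
  choose kk hkk using hex
  set G : V → ℝ := fun z => 2 ^ (kk z) * g ((1/2 : ℝ) ^ (kk z) • z) with hG
  have small_mono : ∀ (z : V) (k l : ℕ), k ≤ l → ∀ ρ, ‖(1/2 : ℝ) ^ k • z‖ ≤ ρ → ‖(1/2 : ℝ) ^ l • z‖ ≤ ρ := by
    intro z k l hkl ρ hk
    refine le_trans ?_ hk
    rw [norm_smul, norm_smul, Real.norm_of_nonneg (by positivity), Real.norm_of_nonneg (by positivity)]
    exact mul_le_mul_of_nonneg_right (pow_le_pow_of_le_one (by norm_num) (by norm_num) hkl)
      (norm_nonneg _)
  have Gk : ∀ (z : V) (k : ℕ), ‖(1/2 : ℝ) ^ k • z‖ ≤ r → G z = 2 ^ k * g ((1/2 : ℝ) ^ k • z) := by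
    have aux : ∀ (z : V) (k l : ℕ), k ≤ l → ‖(1/2 : ℝ) ^ k • z‖ ≤ r →
        2 ^ k * g ((1/2 : ℝ) ^ k • z) = 2 ^ l * g ((1/2 : ℝ) ^ l • z) := by
      intro z k l hkl hk
      obtain ⟨j, rfl⟩ := Nat.exists_eq_add_of_le hkl
      rw [gpow j _ hk, smul_smul, ← pow_add, add_comm j k, pow_add]
      ring
    intro z k hk
    have h1 : ‖(1/2 : ℝ) ^ (kk z) • z‖ ≤ r := (hkk z).trans (by linarith)
    rcases le_total k (kk z) with h2 | h2
    · exact (aux z k (kk z) h2 hk).symm
    · exact aux z (kk z) k h2 h1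
  have Gadd : ∀ z w, G (z + w) = G z + G w := by
    intro z w
    set k := max (kk z) (kk w) with hk
    have hz := small_mono z _ k (le_max_left _ _) _ (hkk z)
    have hw := small_mono w _ k (le_max_right _ _) _ (hkk w)
    have hzw : ‖(1/2 : ℝ) ^ k • (z + w)‖ ≤ r := by
      rw [smul_add]; exact (norm_add_le _ _).trans (by linarith)
    rw [Gk (z + w) k hzw, Gk z k (hz.trans (by linarith)), Gk w k (hw.trans (by linarith)),
      smul_add, gadd _ _ hz hw]
    ring
  have Gcont : Continuous G := by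
    rw [continuous_iff_continuousAt]
    intro z
    set k := kk z
    have hk := hkk z
    -- on the open set where `‖2^{-k} w‖ < r`
    have hop : IsOpen {w : V | ‖(1/2 : ℝ) ^ k • w‖ < r} :=
      isOpen_lt (by fun_prop) continuous_const
    have hz : z ∈ {w : V | ‖(1/2 : ℝ) ^ k • w‖ < r} := by
      show ‖(1/2 : ℝ) ^ k • z‖ < r
      linarith
    have hc1 : ContinuousOn (fun w => 2 ^ k * g ((1/2 : ℝ) ^ k • w))
        {w : V | ‖(1/2 : ℝ) ^ k • w‖ < r} := by
      refine continuousOn_const.mul (gcont.comp (by fun_prop) ?_)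
      intro w hw
      simpa using le_of_lt (show ‖(1/2 : ℝ) ^ k • w‖ < r from hw)
    have hc2 : ContinuousOn G {w : V | ‖(1/2 : ℝ) ^ k • w‖ < r} :=
      hc1.congr (fun w hw => Gk w k (le_of_lt hw))
    exact hc2.continuousAt (hop.mem_nhds hz)
  let GA : V →+ ℝ :=
    { toFun := G
      map_zero' := by
        have := Gadd 0 0
        rw [add_zero] at this
        linarith
      map_add' := Gadd }
  refine ⟨GA.toRealLinearMap Gcont, fun z hz => ?_⟩
  have h1 : G z = g z := by
    have := Gk z 0 (by simpa using hz.trans (by linarith : r / 2 ≤ r))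
    simpa using this
  have h2 : GA.toRealLinearMap Gcont z = G z := rfl
  rw [h2, h1]
  simp only [hg]
  ring

/-- the quadratic formula on all of `K` -/
theorem SD.formula (h : SD K f q) (hK : Convex ℝ K) (hr : 0 < r) (hB : closedBall y0 r ⊆ K)
    (hf : ContinuousOn f (closedBall y0 r)) :
    ∃ ℓ : V →L[ℝ] ℝ, ∀ z, y0 + z ∈ K → f (y0 + z) = f y0 + ℓ z - q z / 2 := by
  obtain ⟨ℓ, hℓ⟩ := h.exists_lin hr hB hf
  have m0 : y0 ∈ K := hB (mem_closedBall_self hr.le)
  refine ⟨ℓ, ?_⟩
  have key : ∀ (k : ℕ) z, y0 + z ∈ K → ‖z‖ ≤ 2 ^ k * (r / 2) →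
      f (y0 + z) = f y0 + ℓ z - q z / 2 := by
    intro k
    induction k with
    | zero => intro z _ hz; exact hℓ z (by simpa using hz)
    | succ k ih =>
      intro z hz hn
      have m1 : y0 + (1/2 : ℝ) • z ∈ K := by
        have := hK m0 hz (show (0:ℝ) ≤ 1/2 by norm_num) (show (0:ℝ) ≤ 1/2 by norm_num) (by norm_num)
        convert! this using 1
        module
      have i1 := ih ((1/2 : ℝ) • z) m1 (by
        rw [norm_smul, Real.norm_of_nonneg (by norm_num)]
        rw [pow_succ] at hn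
        linarith)
      have s1 := h.sd (y0 + (1/2 : ℝ) • z) ((1/2 : ℝ) • z) m1
        (by
          have : y0 + (1/2 : ℝ) • z + (1/2 : ℝ) • z = y0 + z := by module
          rw [this]; exact hz)
        (by rw [add_sub_cancel_right]; exact m0)
      rw [add_sub_cancel_right, show y0 + (1/2 : ℝ) • z + (1/2 : ℝ) • z = y0 + z by module,
        i1, h.hom, map_smul, smul_eq_mul] at s1
      linarith
  intro z hz
  obtain ⟨k, hk⟩ := pow_unbounded_of_one_lt (‖z‖ / (r / 2)) (show (1:ℝ) < 2 by norm_num)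
  refine key k z hz ?_
  rw [div_lt_iff₀ (by positivity)] at hk
  exact hk.le

end Abstract

variable {n : ℕ}

/-- a positive definite quadratic form is the square of the norm after a linear change of
coordinates -/
theorem exists_equiv (B : LinearMap.BilinForm ℝ (E n)) (hs : ∀ z w, B z w = B w z)
    (hp : ∀ z, z ≠ 0 → 0 < B z z) : ∃ S : E n ≃ₗ[ℝ] E n, ∀ u, B (S u) (S u) = ‖u‖ ^ 2 := by
  have hB : LinearMap.IsSymm B := ⟨fun z w => hs z w⟩
  obtain ⟨v0, hv0⟩ := LinearMap.BilinForm.exists_orthogonal_basis hB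
  have hfr : Module.finrank ℝ (E n) = n := by simp
  set v : Module.Basis (Fin n) ℝ (E n) := v0.reindex (finCongr hfr) with hv
  have hvo : ∀ i j, i ≠ j → B (v i) (v j) = 0 := by
    intro i j hij
    rw [hv, Module.Basis.reindex_apply, Module.Basis.reindex_apply]
    exact hv0 (by simpa using hij)
  set q : Fin n → ℝ := fun i => B (v i) (v i) with hq
  have hqpos : ∀ i, 0 < q i := fun i => hp _ (v.ne_zero i)
  let S : E n →ₗ[ℝ] E n :=
    { toFun := fun u => ∑ i, (u i / √(q i)) • v i
      map_add' := by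
        intro u u'
        rw [← Finset.sum_add_distrib]
        refine Finset.sum_congr rfl fun i _ => ?_
        rw [← add_smul, PiLp.add_apply, add_div]
      map_smul' := by
        intro c u
        rw [RingHom.id_apply, Finset.smul_sum]
        refine Finset.sum_congr rfl fun i _ => ?_
        rw [smul_smul, PiLp.smul_apply, smul_eq_mul, mul_div_assoc] }
  have hS : ∀ u, S u = ∑ i, (u i / √(q i)) • v i := fun u => rfl
  have hQS : ∀ u, B (S u) (S u) = ‖u‖ ^ 2 := by
    intro u
    have hbil : B (S u) (S u) =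
        ∑ i, (B ((u i / √(q i)) • v i)) (∑ j, (u j / √(q j)) • v j) := by
      rw [hS]
      conv_lhs => rw [map_sum B (fun i => (u i / √(q i)) • v i) Finset.univ]
      rw [LinearMap.sum_apply]
    rw [hbil]
    have h1 : ∀ i, (B ((u i / √(q i)) • v i)) (∑ j, (u j / √(q j)) • v j) = u i ^ 2 := by
      intro i
      rw [map_sum, Finset.sum_eq_single i]
      · rw [map_smul, map_smul, LinearMap.smul_apply, smul_eq_mul, smul_eq_mul]
        have h2 : B (v i) (v i) = q i := rfl
        rw [h2]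
        have h3 : √(q i) * √(q i) = q i := Real.mul_self_sqrt (hqpos i).le
        have h4 : √(q i) ≠ 0 := (Real.sqrt_pos.2 (hqpos i)).ne'
        field_simp
        rw [sq (√(q i)), h3]
      · intro j _ hji
        rw [map_smul, map_smul, LinearMap.smul_apply, hvo i j (Ne.symm hji)]
        simp
      · intro h
        exact absurd (Finset.mem_univ _) h
    rw [Finset.sum_congr rfl fun i _ => h1 i, EuclideanSpace.norm_sq_eq]
    refine Finset.sum_congr rfl fun i _ => ?_
    rw [Real.norm_eq_abs, sq_abs]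
  have hSinj : Function.Injective S := by
    rw [injective_iff_map_eq_zero]
    intro u hu
    have := hQS u
    rw [hu] at this
    simp only [map_zero] at this
    have h2 : ‖u‖ = 0 := by
      have := this.symm
      exact pow_eq_zero_iff (two_ne_zero) |>.1 this
    exact norm_eq_zero.1 h2
  exact ⟨LinearEquiv.ofInjectiveEndo S hSinj, fun u => hQS u⟩

/-- a ray from an interior point to a point outside meets the boundary before the end point -/
theorem exists_frontier {K : Set (E n)} (hc : IsCompact K) {y0 z : E n} (hy0 : y0 ∈ interior K)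
    (hn : y0 + z ∉ K) : ∃ t : ℝ, 0 ≤ t ∧ t < 1 ∧ y0 + t • z ∈ frontier K := by
  set A : Set ℝ := Icc 0 1 ∩ (fun t : ℝ => y0 + t • z) ⁻¹' K with hA
  have hcont : Continuous fun t : ℝ => y0 + t • z := by fun_prop
  have hAc : IsCompact A := isCompact_Icc.inter_right (hc.isClosed.preimage hcont)
  have h0 : (0:ℝ) ∈ A := ⟨⟨le_rfl, zero_le_one⟩, by
    show y0 + (0:ℝ) • z ∈ K
    rw [zero_smul, add_zero]; exact interior_subset hy0⟩
  obtain ⟨t, ht, htm⟩ := hAc.exists_isGreatest ⟨0, h0⟩
  have hlt : t < 1 := by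
    rcases ht.1.2.lt_or_eq with h1 | h1
    · exact h1
    · exfalso
      apply hn
      have := ht.2
      rw [h1] at this
      have h2 : y0 + (1:ℝ) • z ∈ K := this
      rwa [one_smul] at h2
  refine ⟨t, ht.1.1, hlt, subset_closure ht.2, ?_⟩
  intro hi
  have hop : IsOpen ((fun t : ℝ => y0 + t • z) ⁻¹' interior K) := isOpen_interior.preimage hcont
  obtain ⟨ε, hε, hb⟩ := Metric.isOpen_iff.1 hop t hi
  set s : ℝ := t + min (ε / 2) (1 - t) with hs
  have hm : 0 < min (ε / 2) (1 - t) := lt_min (by linarith) (by linarith)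
  have hsA : s ∈ A := by
    refine ⟨⟨by linarith [ht.1.1], by linarith [min_le_right (ε / 2) (1 - t)]⟩, ?_⟩
    have h1 : s ∈ ball t ε := by
      rw [mem_ball, Real.dist_eq, hs, add_sub_cancel_left, abs_of_pos hm]
      linarith [min_le_left (ε / 2) (1 - t)]
    have h2 : y0 + s • z ∈ interior K := hb h1
    have h3 : y0 + s • z ∈ K := interior_subset h2
    exact h3
  have := htm hsA
  linarith

/-- The end of the proof: second differences independent of the base point in the interior,
limit zero at the boundary. -/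
theorem ellipsoid_of_sd {K : Set (E n)} (hc : IsCompact K) (hK : Convex ℝ K)
    {f q : E n → ℝ} (h : SD (interior K) f q) {y0 : E n} (hy0 : y0 ∈ interior K)
    (hf : ContinuousOn f (interior K)) (hpos : ∀ y ∈ interior K, 0 < f y)
    (hzero : ∀ x ∈ frontier K, Tendsto (fun t : ℝ => f (y0 + t • (x - y0))) (𝓝[<] 1) (𝓝 0))
    (hq : ∀ z, z ≠ 0 → 0 < q z) : IsEllipsoid K := by
  obtain ⟨r, hr, hB⟩ := nhds_basis_closedBall.mem_iff.1 (isOpen_interior.mem_nhds hy0)
  have hfB : ContinuousOn f (closedBall y0 r) := hf.mono hB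
  obtain ⟨B, hBq, hBs⟩ := h.exists_bilin hr hB hfB
  obtain ⟨ℓ, hℓ⟩ := h.formula hK.interior hr hB hfB
  have hqc : Continuous q := h.cont hr hB hfB
  have hBp : ∀ z, z ≠ 0 → 0 < B z z := fun z hz => by rw [hBq]; exact hq z hz
  obtain ⟨S, hS⟩ := exists_equiv B hBs hBp
  have f0 := hpos y0 hy0
  have hq0 : ∀ z, 0 ≤ q z := by
    intro z
    by_cases hz : z = 0
    · rw [hz, h.zero]
    · exact (hq z hz).le
  -- the polynomial vanishes on the boundary
  have hfr : ∀ z, y0 + z ∈ frontier K → f y0 + ℓ z - q z / 2 = 0 := by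
    intro z hz
    have h1 := hzero _ hz
    rw [add_sub_cancel_left] at h1
    have h2 : Tendsto (fun t : ℝ => f y0 + ℓ (t • z) - q (t • z) / 2) (𝓝[<] 1)
        (𝓝 (f y0 + ℓ z - q z / 2)) := by
      have hcont : Continuous fun t : ℝ => f y0 + ℓ (t • z) - q (t • z) / 2 := by fun_prop
      have := (hcont.tendsto 1).mono_left (nhdsWithin_le_nhds (s := Iio (1:ℝ)))
      rwa [one_smul] at this
    refine tendsto_nhds_unique (h2.congr' ?_) h1
    have hev : ∀ᶠ t : ℝ in 𝓝[<] 1, 0 ≤ t ∧ t < 1 := by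
      filter_upwards [self_mem_nhdsWithin, nhdsWithin_le_nhds (Ioi_mem_nhds zero_lt_one)]
        with t ht1 ht0
      exact ⟨le_of_lt ht0, ht1⟩
    filter_upwards [hev] with t ht
    refine (hℓ _ ?_).symm
    have := hK.add_smul_sub_mem_interior' (x := y0 + z) (y := y0)
      (subset_closure (hc.isClosed.frontier_subset hz)) hy0
      (t := 1 - t) ⟨by linarith [ht.2], by linarith [ht.1]⟩
    convert! this using 1
    module
  -- `K` is the set where the polynomial is nonnegative
  have hmem : ∀ z, y0 + z ∈ K ↔ 0 ≤ f y0 + ℓ z - q z / 2 := by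
    intro z
    constructor
    · intro hz
      by_cases hi : y0 + z ∈ interior K
      · rw [← hℓ z hi]
        exact (hpos _ hi).le
      · exact (hfr _ ⟨subset_closure hz, hi⟩).symm.le
    · intro hz
      by_contra hn
      obtain ⟨t, ht0, ht1, htf⟩ := exists_frontier hc hy0 hn
      have h2 := hfr _ htf
      rw [map_smul, smul_eq_mul, h.hom] at h2
      have h3 : 0 < (1 - t) * f y0 := mul_pos (by linarith) f0
      have h4 : 0 ≤ t * (f y0 + ℓ z - q z / 2) := mul_nonneg ht0 hz
      have h5 : 0 ≤ t * (1 - t) * q z := mul_nonneg (mul_nonneg ht0 (by linarith)) (hq0 z)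
      nlinarith
  -- complete the square
  set φ : E n →L[ℝ] ℝ := ℓ.comp (LinearMap.toContinuousLinearMap (S : E n →ₗ[ℝ] E n)) with hφ
  have hφS : ∀ u, φ u = ℓ (S u) := fun u => rfl
  set a : E n := (InnerProductSpace.toDual ℝ (E n)).symm φ with ha
  have hina : ∀ u, ⟪a, u⟫ = ℓ (S u) := by
    intro u
    rw [ha, InnerProductSpace.toDual_symm_apply, hφS]
  set c : ℝ := 2 * f y0 + ‖a‖ ^ 2 with hcdef
  have hcpos : 0 < c := by positivity
  have hP : ∀ u, f y0 + ℓ (S u) - q (S u) / 2 = (c - ‖u - a‖ ^ 2) / 2 := by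
    intro u
    rw [← hina, ← hBq, hS, @norm_sub_sq_real, real_inner_comm, hcdef]
    ring
  have hsc : √c ≠ 0 := (Real.sqrt_pos.2 hcpos).ne'
  have hsq : √c ^ 2 = c := Real.sq_sqrt hcpos.le
  set T : E n ≃ᵃ[ℝ] E n := ((LinearEquiv.smulOfNeZero ℝ (E n) (√c) hsc).trans
    S).toAffineEquiv.trans (AffineEquiv.constVAdd ℝ (E n) (y0 + S a)) with hT
  have hTa : ∀ x, T x = y0 + S a + S (√c • x) := fun x => rfl
  refine ⟨T, ?_⟩
  ext y
  constructor
  · rintro ⟨x, hx, rfl⟩
    rw [mem_closedBall_zero_iff] at hx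
    rw [hTa, add_assoc, ← map_add, hmem, hP, add_sub_cancel_left, norm_smul,
      Real.norm_of_nonneg (Real.sqrt_nonneg c), mul_pow, hsq]
    have : ‖x‖ ^ 2 ≤ 1 := by nlinarith [norm_nonneg x]
    nlinarith
  · intro hy
    set u : E n := S.symm (y - y0) with hu
    have hSu : y0 + S u = y := by rw [hu, LinearEquiv.apply_symm_apply]; abel
    rw [← hSu, hmem, hP] at hy
    refine ⟨(√c)⁻¹ • (u - a), ?_, ?_⟩
    · rw [mem_closedBall_zero_iff, norm_smul, norm_inv, Real.norm_of_nonneg (Real.sqrt_nonneg c),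
        inv_mul_le_iff₀ (Real.sqrt_pos.2 hcpos), mul_one]
      refine Real.le_sqrt_of_sq_le ?_
      linarith
    · rw [hTa, smul_inv_smul₀ hsc, add_assoc, ← map_add, add_sub_cancel, hSu]

/-- the chord through an interior point: end points on the boundary -/
theorem exists_chord {K : Set (E n)} (hc : IsCompact K) {y w : E n} (hy : y ∈ interior K)
    (hw : ‖w‖ = 1) : ∃ a : ℝ, 0 < a ∧ y + a • w ∈ frontier K := by
  obtain ⟨R, hR⟩ := hc.isBounded.subset_closedBall y
  have hR0 : 0 ≤ R := by
    have := hR (interior_subset hy)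
    rwa [mem_closedBall, dist_self] at this
  have hn : y + (R + 1) • w ∉ K := by
    intro h
    have := hR h
    rw [mem_closedBall, dist_eq_norm, add_sub_cancel_left, norm_smul, hw, mul_one,
      Real.norm_of_nonneg (by linarith)] at this
    linarith
  obtain ⟨t, ht0, -, htf⟩ := exists_frontier hc hy hn
  rw [smul_smul] at htf
  refine ⟨t * (R + 1), ?_, htf⟩
  rcases ht0.lt_or_eq with h | h
  · positivity
  · exfalso
    rw [← h, zero_mul, zero_smul, add_zero] at htf
    exact htf.2 hy

/-- If for every direction `w` the product of the two distances to the boundary along `w` is a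
constant multiple `c w` of one and the same continuous function `F` on the interior, then `K` is
an ellipsoid. -/
theorem ellipsoid_of_pow {K : Set (E n)} (hc : IsCompact K) (hK : Convex ℝ K)
    (hne : (interior K).Nonempty) {F : E n → ℝ} (hF : ContinuousOn F (interior K))
    (hFpos : ∀ y ∈ interior K, 0 < F y)
    (hpow : ∀ w : E n, ‖w‖ = 1 → ∃ c : ℝ, 0 < c ∧ ∀ y ∈ interior K, ∀ a b : ℝ, 0 < a → 0 < b →
      y + a • w ∈ frontier K → y - b • w ∈ frontier K → a * b = c * F y) : IsEllipsoid K := by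
  obtain ⟨y0, hy0⟩ := hne
  choose c0 hc0 hc1 using hpow
  -- both end points
  have hch : ∀ y ∈ interior K, ∀ w : E n, ‖w‖ = 1 → ∃ a b : ℝ, 0 < a ∧ 0 < b ∧
      y + a • w ∈ frontier K ∧ y - b • w ∈ frontier K := by
    intro y hy w hw
    obtain ⟨a, ha, ha'⟩ := exists_chord hc hy hw
    obtain ⟨b, hb, hb'⟩ := exists_chord hc hy (w := -w) (by rwa [norm_neg])
    refine ⟨a, b, ha, hb, ha', ?_⟩
    rwa [smul_neg, ← sub_eq_add_neg] at hb'
  set C : E n → ℝ := fun w => if h : ‖w‖ = 1 then c0 w h else 1 with hC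
  have hCpos : ∀ w, 0 < C w := by
    intro w
    simp only [hC]
    split_ifs with h
    · exact hc0 w h
    · exact one_pos
  have hC1 : ∀ w, ‖w‖ = 1 → ∀ y ∈ interior K, ∀ a b : ℝ, 0 < a → 0 < b →
      y + a • w ∈ frontier K → y - b • w ∈ frontier K → a * b = C w * F y := by
    intro w hw
    simp only [hC]
    rw [dif_pos hw]
    exact hc1 w hw
  have hCneg : ∀ w, C (-w) = C w := by
    intro w
    by_cases hw : ‖w‖ = 1
    · obtain ⟨a, b, ha, hb, ha', hb'⟩ := hch y0 hy0 w hw
      have h1 := hC1 w hw y0 hy0 a b ha hb ha' hb'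
      have h2 := hC1 (-w) (by rwa [norm_neg]) y0 hy0 b a hb ha
        (by rwa [smul_neg, ← sub_eq_add_neg]) (by rwa [smul_neg, sub_neg_eq_add])
      have h3 := hFpos y0 hy0
      have : C (-w) * F y0 = C w * F y0 := by linarith
      exact mul_right_cancel₀ h3.ne' this
    · simp only [hC]
      rw [dif_neg hw, dif_neg (by rwa [norm_neg])]
  set q : E n → ℝ := fun z => 2 * ‖z‖ ^ 2 / C (‖z‖⁻¹ • z) with hq
  have hunit : ∀ z : E n, z ≠ 0 → ‖‖z‖⁻¹ • z‖ = 1 := by
    intro z hz
    rw [norm_smul, norm_inv, norm_norm, inv_mul_cancel₀ (norm_ne_zero_iff.2 hz)]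
  have hsm : ∀ z : E n, z ≠ 0 → ‖z‖ • (‖z‖⁻¹ • z) = z := fun z hz =>
    smul_inv_smul₀ (norm_ne_zero_iff.2 hz) z
  have hqpos : ∀ z, z ≠ 0 → 0 < q z := by
    intro z hz
    have : 0 < ‖z‖ := norm_pos_iff.2 hz
    have := hCpos (‖z‖⁻¹ • z)
    simp only [hq]
    positivity
  -- the product on a chord
  have hprod : ∀ w : E n, ‖w‖ = 1 → ∀ y ∈ interior K, ∀ a b : ℝ, 0 < a → 0 < b →
      y + a • w ∈ frontier K → y - b • w ∈ frontier K → ∀ s : ℝ, y + s • w ∈ interior K →
      -b < s → s < a → (a - s) * (b + s) = C w * F (y + s • w) := by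
    intro w hw y hy a b ha hb ha' hb' s hs h1 h2
    refine hC1 w hw _ hs _ _ (by linarith) (by linarith) ?_ ?_
    · convert! ha' using 1; module
    · convert! hb' using 1; module
  have hlt : ∀ w : E n, ∀ y ∈ interior K, ∀ a s : ℝ, 0 < a → 0 ≤ s → y + a • w ∈ frontier K →
      y + s • w ∈ interior K → s < a := by
    intro w y hy a s ha hs0 ha' hs
    by_contra hcon
    push Not at hcon
    have hspos : 0 < s := lt_of_lt_of_le ha hcon
    have := hK.interior hy hs (show 0 ≤ 1 - a / s by
      rw [sub_nonneg, div_le_one hspos]; exact hcon) (show 0 ≤ a / s by positivity) (by ring)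
    apply ha'.2
    convert! this using 1
    rw [smul_add, smul_smul, div_mul_cancel₀ _ hspos.ne']
    module
  have hsd : SD (interior K) F q := by
    constructor
    · intro t z
      by_cases hz : z = 0
      · subst hz; simp [hq]
      by_cases ht : t = 0
      · subst ht; simp [hq]
      have hn : ‖t • z‖ = |t| * ‖z‖ := norm_smul t z
      have hdir : C (‖t • z‖⁻¹ • t • z) = C (‖z‖⁻¹ • z) := by
        rcases lt_or_gt_of_ne ht with h | h
        · have : ‖t • z‖⁻¹ • t • z = - (‖z‖⁻¹ • z) := by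
            rw [hn, abs_of_neg h, smul_smul, mul_inv, inv_neg, neg_mul, neg_mul, mul_right_comm,
              inv_mul_cancel₀ ht, one_mul, neg_smul]
          rw [this, hCneg]
        · have : ‖t • z‖⁻¹ • t • z = ‖z‖⁻¹ • z := by
            rw [hn, abs_of_pos h, smul_smul, mul_inv, mul_right_comm,
              inv_mul_cancel₀ ht, one_mul]
          rw [this]
      simp only [hq]
      rw [hdir, hn, mul_pow, sq_abs]
      ring
    · intro y z hy hyz hyz'
      by_cases hz : z = 0
      · subst hz; simp [hq]; ring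
      set w := ‖z‖⁻¹ • z with hw
      have hw1 : ‖w‖ = 1 := hunit z hz
      have hzw : ‖z‖ • w = z := hsm z hz
      have hs : 0 < ‖z‖ := norm_pos_iff.2 hz
      obtain ⟨a, b, ha, hb, ha', hb'⟩ := hch y hy w hw1
      rw [← hzw] at hyz hyz'
      have l1 := hlt w y hy a ‖z‖ ha hs.le ha' hyz
      have l2 := hlt (-w) y hy b ‖z‖ hb hs.le (by rwa [smul_neg, ← sub_eq_add_neg])
        (by rwa [smul_neg, ← sub_eq_add_neg])
      have p0 := hC1 w hw1 y hy a b ha hb ha' hb'
      have p1 := hprod w hw1 y hy a b ha hb ha' hb' ‖z‖ hyz (by linarith) l1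
      have p2 := hprod w hw1 y hy a b ha hb ha' hb' (-‖z‖)
        (by rwa [neg_smul, ← sub_eq_add_neg]) (by linarith) (by linarith)
      rw [neg_smul, hzw, ← sub_eq_add_neg y z] at p2
      rw [hzw] at p1
      have hCw := hCpos w
      have hqz : q z = 2 * ‖z‖ ^ 2 / C w := rfl
      rw [hqz, ← mul_right_inj' hCw.ne']
      have : C w * (2 * ‖z‖ ^ 2 / C w) = 2 * ‖z‖ ^ 2 := by
        field_simp
      rw [mul_neg, this]
      nlinarith
  refine ellipsoid_of_sd hc hK hsd hy0 hF hFpos ?_ hqpos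
  intro x hx
  have hxy : x - y0 ≠ 0 := by
    intro h
    rw [sub_eq_zero] at h
    rw [h] at hx
    exact hx.2 hy0
  set D : ℝ := ‖x - y0‖ with hD
  have hDpos : 0 < D := norm_pos_iff.2 hxy
  set w := ‖x - y0‖⁻¹ • (x - y0) with hw
  have hw1 : ‖w‖ = 1 := hunit _ hxy
  have hDw : D • w = x - y0 := hsm _ hxy
  obtain ⟨-, b, -, hb, -, hb'⟩ := hch y0 hy0 w hw1
  have hD' : y0 + D • w ∈ frontier K := by rw [hDw, add_sub_cancel]; exact hx
  have hCw := hCpos w
  have h1 : Tendsto (fun t : ℝ => (D - t * D) * (b + t * D) / C w) (𝓝[<] 1) (𝓝 0) := by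
    have hcont : Continuous (fun t : ℝ => (D - t * D) * (b + t * D) / C w) := by fun_prop
    have := (hcont.tendsto 1).mono_left (nhdsWithin_le_nhds (s := Iio (1:ℝ)))
    simpa using this
  refine h1.congr' ?_
  have hev : ∀ᶠ t : ℝ in 𝓝[<] 1, 0 ≤ t ∧ t < 1 := by
    filter_upwards [self_mem_nhdsWithin, nhdsWithin_le_nhds (Ioi_mem_nhds zero_lt_one)]
      with t ht1 ht0
    exact ⟨le_of_lt ht0, ht1⟩
  filter_upwards [hev] with t ht
  have hint : y0 + t • (x - y0) ∈ interior K := by
    have := hK.add_smul_sub_mem_interior' (x := x) (y := y0)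
      (subset_closure (hc.isClosed.frontier_subset hx)) hy0
      (t := 1 - t) ⟨by linarith [ht.2], by linarith [ht.1]⟩
    convert! this using 1
    module
  have htD : (t * D) • w = t • (x - y0) := by rw [mul_smul, hDw]
  have p := hprod w hw1 y0 hy0 D b hDpos hb hD' hb' (t * D) (by rw [htD]; exact hint)
    (by nlinarith [ht.1]) (by nlinarith [ht.2])
  rw [htD] at p
  rw [p, mul_div_cancel_left₀ _ hCw.ne']

end Pool.Agent.Helper43.FU
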