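import Pool.Agent.Helper73.FU.Stmts

/-!
# Module FEA of MP_a2630c_FU: solutions and densities
-/

open MeasureTheory Set Metric Real Filter Topology
open scoped RealInnerProductSpace ENNReal
open Pool.Agent.Helper16.Buoy (E cap IsEllipsoid Homothetic buoyancyBody)
open Pool.Agent.Helper73.HV (supp)
open Pool.Agent.Helper73.LR (CB vol GG Sol aff)
open Pool.Agent.Helper73.SY (CS)
open Pool.Agent.Helper73.FU

namespace Pool.Agent.Helper43.FU

variable {n : ℕ} {K : Set (E n)} {ρ : E n → ℝ} {δ lam : ℝ}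

/-- a bounded measurable density is integrable against continuous functions -/
theorem integrable_dens {V : Type*} [NormedAddCommGroup V] [NormedSpace ℝ V]
    (hK : IsCompact K) (hm : AEStronglyMeasurable ρ (volume.restrict K)) (h0 : ∀ x, 0 ≤ ρ x)
    (h1 : ∀ x, ρ x ≤ 1) {g : E n → V} (hg : ContinuousOn g K) :
    IntegrableOn (fun x => ρ x • g x) K := by
  have hgi : IntegrableOn g K := hg.integrableOn_compact hK
  refine hgi.norm.mono' (hm.smul hgi.aestronglyMeasurable) (ae_of_all _ fun x => ?_)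
  rw [norm_smul, Real.norm_of_nonneg (h0 x)]
  exact mul_le_of_le_one_left (norm_nonneg _) (h1 x)

theorem integrable_dens_real (hK : IsCompact K) (hm : AEStronglyMeasurable ρ (volume.restrict K))
    (h0 : ∀ x, 0 ≤ ρ x) (h1 : ∀ x, ρ x ≤ 1) {g : E n → ℝ} (hg : ContinuousOn g K) :
    IntegrableOn (fun x => ρ x * g x) K :=
  integrable_dens hK hm h0 h1 hg

theorem integrable_rho (hK : IsCompact K) (hm : AEStronglyMeasurable ρ (volume.restrict K))
    (h0 : ∀ x, 0 ≤ ρ x) (h1 : ∀ x, ρ x ≤ 1) : IntegrableOn ρ K := by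
  have := integrable_dens_real hK hm h0 h1 (g := fun _ => (1:ℝ)) continuousOn_const
  simpa using this

/-- the inner product with the moment -/
theorem inner_mom (hK : IsCompact K) (hm : AEStronglyMeasurable ρ (volume.restrict K))
    (h0 : ∀ x, 0 ≤ ρ x) (h1 : ∀ x, ρ x ≤ 1) (u : E n) :
    ⟪u, ∫ x in K, ρ x • x⟫ = ∫ x in K, ρ x * ⟪u, x⟫ := by
  have hi := integrable_dens hK hm h0 h1 (g := fun x => x) continuousOn_id
  rw [← integral_inner hi.integrable]
  refine integral_congr_ae (ae_of_all _ fun x => ?_)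
  show inner ℝ u (ρ x • x) = ρ x * inner ℝ u x
  rw [inner_smul_right]

/-- the bathtub difference -/
theorem bathtub (hK : IsCompact K) (hm : AEStronglyMeasurable ρ (volume.restrict K))
    (h0 : ∀ x, 0 ≤ ρ x) (h1 : ∀ x, ρ x ≤ 1) (hd : ∫ x in K, ρ x = δ) (u : E n) (τ : ℝ) :
    GG K u τ + δ * τ - ⟪u, ∫ x in K, ρ x • x⟫ =
      ∫ x in K, (max (inner ℝ u x - τ) 0 - ρ x * (inner ℝ u x - τ)) ∧
    IntegrableOn (fun x => max (inner ℝ u x - τ) 0 - ρ x * (inner ℝ u x - τ)) K := by
  have i1 : IntegrableOn (fun x : E n => max (inner ℝ u x - τ) 0) K :=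
    (Continuous.continuousOn (by fun_prop)).integrableOn_compact hK
  have i2 : IntegrableOn (fun x : E n => ρ x * (inner ℝ u x - τ)) K :=
    integrable_dens_real hK hm h0 h1 (by fun_prop)
  have i3 : IntegrableOn (fun x : E n => ρ x * inner ℝ u x) K :=
    integrable_dens_real hK hm h0 h1 (by fun_prop)
  have i4 : IntegrableOn (fun x : E n => ρ x * τ) K :=
    integrable_dens_real hK hm h0 h1 (by fun_prop)
  refine ⟨?_, i1.sub i2⟩
  rw [integral_sub i1 i2, inner_mom hK hm h0 h1]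
  have h2 : ∫ x in K, ρ x * (inner ℝ u x - τ) = (∫ x in K, ρ x * inner ℝ u x) - δ * τ := by
    have : (fun x : E n => ρ x * (inner ℝ u x - τ)) = fun x => ρ x * inner ℝ u x - ρ x * τ := by
      funext x; ring
    rw [this, integral_sub i3 i4, integral_mul_const, hd]
  rw [h2]
  unfold GG
  ring

theorem bath_nonneg (h0 : ∀ x, 0 ≤ ρ x) (h1 : ∀ x, ρ x ≤ 1) (s : ℝ) (x : E n) :
    0 ≤ max s 0 - ρ x * s := by
  rcases le_total 0 s with h | h
  · rw [max_eq_left h]
    nlinarith [h1 x]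
  · rw [max_eq_right h]
    nlinarith [h0 x]

theorem bath_zero (s : ℝ) (hs : s ≠ 0) (x : E n) (h : max s 0 - ρ x * s = 0) :
    ρ x = 0 ∨ ρ x = 1 := by
  rcases lt_or_gt_of_ne hs with h2 | h2
  · left
    rw [max_eq_right h2.le] at h
    have : ρ x * s = 0 := by linarith
    exact (mul_eq_zero.1 this).resolve_right hs
  · right
    rw [max_eq_left h2.le] at h
    have : (1 - ρ x) * s = 0 := by linarith
    have := (mul_eq_zero.1 this).resolve_right hs
    linarith

/-- weak duality -/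
theorem weak_dual (h : CS K δ lam) (hm : AEStronglyMeasurable ρ (volume.restrict K))
    (h0 : ∀ x, 0 ≤ ρ x) (h1 : ∀ x, ρ x ≤ 1) (hd : ∫ x in K, ρ x = δ) (u : E n) :
    ⟪u, ∫ x in K, ρ x • x⟫ ≤ lam * supp K u := by
  have hne : K.Nonempty := h.cb.int.mono interior_subset
  by_cases hu : u = 0
  · obtain ⟨x, hx, hxe⟩ := (Pool.Agent.Helper65.LR.supp_greatest h.cb.comp hne u).1
    have hxe' : inner ℝ u x = supp K u := hxe
    rw [← hxe', hu, inner_zero_left, inner_zero_left, mul_zero]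
  · obtain ⟨τ, -, hτ⟩ := h.eq u hu
    obtain ⟨b1, -⟩ := bathtub h.cb.comp hm h0 h1 hd u τ
    rw [hτ] at b1
    have b2 : 0 ≤ ∫ x in K, (max (inner ℝ u x - τ) 0 - ρ x * (inner ℝ u x - τ)) :=
      integral_nonneg fun x => bath_nonneg h0 h1 _ x
    linarith

/-- a supporting direction at a point of `K` outside the interior -/
theorem exists_support (hK : CB K) {p : E n} (hp : p ∉ interior K) :
    ∃ u : E n, u ≠ 0 ∧ ∀ x ∈ K, ⟪u, x⟫ ≤ ⟪u, p⟫ := by
  obtain ⟨f, hf⟩ := geometric_hahn_banach_open_point hK.conv.interior isOpen_interior hp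
  set u : E n := (InnerProductSpace.toDual ℝ (E n)).symm f with hu
  have hfu : ∀ y, inner ℝ u y = f y := fun y => by
    rw [hu, InnerProductSpace.toDual_symm_apply]
  obtain ⟨x0, hx0⟩ := hK.int
  refine ⟨u, ?_, ?_⟩
  · intro h
    have := hf x0 hx0
    rw [← hfu, ← hfu, h, inner_zero_left, inner_zero_left] at this
    exact lt_irrefl _ this
  · intro x hx
    have hcl : closure (interior K) = K := by
      rw [hK.conv.closure_interior_eq_closure_of_nonempty_interior hK.int,
        hK.comp.isClosed.closure_eq]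
    rw [← hcl] at hx
    have hclosed : IsClosed {x : E n | inner ℝ u x ≤ inner ℝ u p} :=
      isClosed_le (by fun_prop) continuous_const
    refine closure_minimal (fun y hy => ?_) hclosed hx
    show inner ℝ u y ≤ inner ℝ u p
    rw [hfu, hfu]
    exact (hf y hy).le

theorem s_fea : S_fea := by
  intro n K δ lam h ρ hm h0 h1 hd
  have hne : K.Nonempty := h.cb.int.mono interior_subset
  have hmem : lam⁻¹ • (∫ x in K, ρ x • x) ∈ K := by
    refine Pool.Agent.Helper65.LR.mem_of_supp h.cb.conv h.cb.comp (fun u => ?_) hne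
    have := weak_dual h hm h0 h1 hd u
    rw [inner_smul_right, inv_mul_le_iff₀ h.lpos]
    exact this
  refine ⟨hmem, fun hni => ?_⟩
  obtain ⟨u, hu, hsup⟩ := exists_support h.cb hni
  obtain ⟨τ, -, hτ⟩ := h.eq u hu
  obtain ⟨b1, b2⟩ := bathtub h.cb.comp hm h0 h1 hd u τ
  have hs : lam * supp K u ≤ ⟪u, ∫ x in K, ρ x • x⟫ := by
    obtain ⟨x, hx, hxe⟩ := (Pool.Agent.Helper65.LR.supp_greatest h.cb.comp hne u).1
    have hxe' : inner ℝ u x = supp K u := hxe
    have h2 := hsup x hx
    rw [inner_smul_right, hxe', le_inv_mul_iff₀ h.lpos] at h2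
    exact h2
  have b3 : 0 ≤ᵐ[volume.restrict K]
      fun x => max (inner ℝ u x - τ) 0 - ρ x * (inner ℝ u x - τ) :=
    ae_of_all _ fun x => bath_nonneg h0 h1 _ x
  have b4 : ∫ x in K, (max (inner ℝ u x - τ) 0 - ρ x * (inner ℝ u x - τ)) = 0 := by
    refine le_antisymm ?_ (integral_nonneg_of_ae b3)
    rw [← b1, hτ]
    linarith
  have b5 := (integral_eq_zero_iff_of_nonneg_ae b3 b2).1 b4
  have b6 : ∀ᵐ x ∂(volume.restrict K), inner ℝ u x ≠ τ := by
    refine ae_restrict_of_ae ?_
    rw [ae_iff]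
    simpa using Pool.Agent.Helper51.HV.hyper_null hu τ
  filter_upwards [b5, b6] with x hx1 hx2
  exact bath_zero _ (sub_ne_zero.2 hx2) x hx1

end Pool.Agent.Helper43.FU
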