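import Pool.Agent.Helper16.Buoy.Stmt

/-!
# The minimal function `F_*` (project MP_a2630c_FU)

`Fst K y` is the infimum of `l y - ‖y‖ ^ 2` over affine `l` with `‖x‖ ^ 2 ≤ l x` on `K`.
-/

open MeasureTheory Set Metric Filter Topology
open scoped RealInnerProductSpace
open Pool.Agent.Helper16.Buoy (E)

namespace Pool.Agent.Helper43.FU

section Super

variable {V : Type*} [NormedAddCommGroup V] [NormedSpace ℝ V]

/-- supergradients of a continuous concave function on an open convex set -/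
theorem exists_supergradient_clm {U : Set V} (hU : IsOpen U) {g : V → ℝ} (hg : ConcaveOn ℝ U g)
    (hgc : ContinuousOn g U) {y0 : V} (hy0 : y0 ∈ U) :
    ∃ ℓ : V →L[ℝ] ℝ, ∀ y ∈ U, g y ≤ g y0 + ℓ (y - y0) := by
  set A : Set (V × ℝ) := {p | p.1 ∈ U ∧ p.2 < g p.1} with hA
  have hAconv : Convex ℝ A := hg.convex_strict_hypograph
  have hAopen : IsOpen A := by
    have h1 : ContinuousOn (fun p : V × ℝ => g p.1 - p.2) (U ×ˢ univ) :=
      (hgc.comp continuousOn_fst (fun p hp => hp.1)).sub continuousOn_snd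
    have h2 := h1.isOpen_inter_preimage (hU.prod isOpen_univ) (isOpen_Ioi (a := (0:ℝ)))
    convert h2 using 1
    ext p
    simp only [hA, mem_ofPred_eq, mem_inter_iff, mem_prod, mem_univ, and_true, mem_preimage,
      mem_Ioi, sub_pos]
  have hn : (y0, g y0) ∉ A := fun h => lt_irrefl _ h.2
  obtain ⟨Φ, hΦ⟩ := geometric_hahn_banach_open_point hAconv hAopen hn
  set φ : V →L[ℝ] ℝ := Φ.comp (ContinuousLinearMap.inl ℝ V ℝ) with hφ
  set c : ℝ := Φ (0, 1) with hc
  have hsplit : ∀ (y : V) (s : ℝ), Φ (y, s) = φ y + c * s := by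
    intro y s
    have h1 : ((y, s) : V × ℝ) = (y, 0) + s • ((0 : V), (1 : ℝ)) := by
      ext <;> simp
    rw [h1, map_add, map_smul, smul_eq_mul, mul_comm]
    rfl
  have hcpos : 0 < c := by
    have := hΦ (y0, g y0 - 1) ⟨hy0, by show g y0 - 1 < g y0; linarith⟩
    rw [hsplit, hsplit] at this
    linarith
  have hle : ∀ y ∈ U, φ y + c * g y ≤ φ y0 + c * g y0 := by
    intro y hy
    refine le_of_forall_pos_le_add fun ε hε => ?_
    have := hΦ (y, g y - ε / c) ⟨hy, by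
      show g y - ε / c < g y
      have : 0 < ε / c := by positivity
      linarith⟩
    rw [hsplit, hsplit] at this
    have h2 : c * (ε / c) = ε := by field_simp
    nlinarith
  refine ⟨-(c⁻¹ • φ), fun y hy => ?_⟩
  have h1 := hle y hy
  rw [neg_apply, smul_apply, smul_eq_mul, map_sub]
  have h2 : c * (g y0 + -(c⁻¹ * (φ y - φ y0))) = c * g y0 - (φ y - φ y0) := by
    field_simp
    ring
  have h3 : c * g y ≤ c * (g y0 + -(c⁻¹ * (φ y - φ y0))) := by rw [h2]; linarith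
  exact le_of_mul_le_mul_left h3 hcpos

end Super

variable {n : ℕ}

/-- supergradients as vectors -/
theorem exists_supergradient {U : Set (E n)} (hU : IsOpen U) {g : E n → ℝ}
    (hg : ConcaveOn ℝ U g) {y0 : E n} (hy0 : y0 ∈ U) :
    ∃ a : E n, ∀ y ∈ U, g y ≤ g y0 + ⟪a, y - y0⟫ := by
  have hgc : ContinuousOn g U := by
    have := hg.continuousOn_interior
    rwa [hU.interior_eq] at this
  obtain ⟨ℓ, hℓ⟩ := exists_supergradient_clm hU hg hgc hy0
  refine ⟨(InnerProductSpace.toDual ℝ (E n)).symm ℓ, fun y hy => ?_⟩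
  rw [InnerProductSpace.toDual_symm_apply]
  exact hℓ y hy

/-- affine majorants of `‖·‖ ^ 2` on `K` -/
def Maj (K : Set (E n)) : Set (E n × ℝ) := {p | ∀ x ∈ K, ‖x‖ ^ 2 ≤ ⟪p.1, x⟫ + p.2}

/-- the minimal function -/
noncomputable def Fst (K : Set (E n)) (y : E n) : ℝ :=
  sInf ((fun p : E n × ℝ => ⟪p.1, y⟫ + p.2) '' Maj K) - ‖y‖ ^ 2

variable {K : Set (E n)}

theorem Maj_nonempty (hK : Bornology.IsBounded K) : (Maj K).Nonempty := by
  obtain ⟨R, hR⟩ := hK.subset_closedBall 0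
  refine ⟨(0, R ^ 2), fun x hx => ?_⟩
  have := hR hx
  rw [mem_closedBall_zero_iff] at this
  rw [inner_zero_left, zero_add]
  exact pow_le_pow_left₀ (norm_nonneg _) this 2

theorem Maj_bdd {y : E n} (hy : y ∈ K) :
    BddBelow ((fun p : E n × ℝ => ⟪p.1, y⟫ + p.2) '' Maj K) := by
  refine ⟨‖y‖ ^ 2, ?_⟩
  rintro _ ⟨p, hp, rfl⟩
  exact hp y hy

theorem Fst_le {y : E n} (hy : y ∈ K) {p : E n × ℝ} (hp : p ∈ Maj K) :
    Fst K y ≤ ⟪p.1, y⟫ + p.2 - ‖y‖ ^ 2 := by
  unfold Fst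
  have := csInf_le (Maj_bdd hy) (mem_image_of_mem (fun p : E n × ℝ => ⟪p.1, y⟫ + p.2) hp)
  linarith

theorem le_Fst (hK : Bornology.IsBounded K) {y : E n} {s : ℝ}
    (h : ∀ p ∈ Maj K, s ≤ ⟪p.1, y⟫ + p.2 - ‖y‖ ^ 2) : s ≤ Fst K y := by
  unfold Fst
  have : s + ‖y‖ ^ 2 ≤ sInf ((fun p : E n × ℝ => ⟪p.1, y⟫ + p.2) '' Maj K) := by
    refine le_csInf ((Maj_nonempty hK).image _) ?_
    rintro _ ⟨p, hp, rfl⟩
    have := h p hp
    simp only
    linarith
  linarith

theorem Fst_nonneg (hK : Bornology.IsBounded K) {y : E n} (hy : y ∈ K) : 0 ≤ Fst K y :=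
  le_Fst hK fun p hp => by linarith [hp y hy]

/-- `F_* + ‖·‖ ^ 2` is concave on `K` -/
theorem Fst_concave (hK : Bornology.IsBounded K) (hc : Convex ℝ K) :
    ConcaveOn ℝ K (fun y => Fst K y + ‖y‖ ^ 2) := by
  refine ⟨hc, fun x hx y hy s t hs ht hst => ?_⟩
  have hm : s • x + t • y ∈ K := hc hx hy hs ht hst
  simp only [smul_eq_mul]
  have : s * (Fst K x + ‖x‖ ^ 2) + t * (Fst K y + ‖y‖ ^ 2) - ‖s • x + t • y‖ ^ 2
      ≤ Fst K (s • x + t • y) := by
    refine le_Fst hK fun p hp => ?_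
    have h1 := Fst_le hx hp
    have h2 := Fst_le hy hp
    rw [inner_add_right, inner_smul_right, inner_smul_right]
    have h3 : s * (Fst K x + ‖x‖ ^ 2) ≤ s * (⟪p.1, x⟫ + p.2) :=
      mul_le_mul_of_nonneg_left (by linarith) hs
    have h4 : t * (Fst K y + ‖y‖ ^ 2) ≤ t * (⟪p.1, y⟫ + p.2) :=
      mul_le_mul_of_nonneg_left (by linarith) ht
    have h5 : s * p.2 + t * p.2 = p.2 := by rw [← add_mul, hst, one_mul]
    linarith
  linarith

/-- lower bound inside: `F_* ≥ r ^ 2` at the centre of a ball of radius `r` in `K` -/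
theorem sq_le_Fst (hK : Bornology.IsBounded K) {y : E n} {r : ℝ} (hr : 0 ≤ r)
    (hB : closedBall y r ⊆ K) {w : E n} (hw : ‖w‖ = 1) : r ^ 2 ≤ Fst K y := by
  refine le_Fst hK fun p hp => ?_
  have m1 : y + r • w ∈ K := hB (by
    rw [mem_closedBall, dist_eq_norm, add_sub_cancel_left, norm_smul, hw, mul_one,
      Real.norm_of_nonneg hr])
  have m2 : y - r • w ∈ K := hB (by
    rw [mem_closedBall, dist_eq_norm, sub_sub_cancel_left, norm_neg, norm_smul, hw, mul_one,
      Real.norm_of_nonneg hr])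
  have h1 := hp _ m1
  have h2 := hp _ m2
  have h3 : ‖y + r • w‖ ^ 2 + ‖y - r • w‖ ^ 2 = 2 * ‖y‖ ^ 2 + 2 * r ^ 2 := by
    have := parallelogram_law_with_norm ℝ y (r • w)
    rw [norm_smul r w, hw, mul_one, Real.norm_of_nonneg hr] at this
    linarith
  rw [inner_add_right] at h1
  rw [inner_sub_right] at h2
  linarith

theorem Fst_pos (hK : Bornology.IsBounded K) {w : E n} (hw : ‖w‖ = 1) {y : E n}
    (hy : y ∈ interior K) : 0 < Fst K y := by
  obtain ⟨r, hr, hB⟩ := nhds_basis_closedBall.mem_iff.1 (isOpen_interior.mem_nhds hy)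
  have := sq_le_Fst hK hr.le (hB.trans interior_subset) hw
  have : 0 < r ^ 2 := by positivity
  linarith

theorem Fst_continuousOn (hK : Bornology.IsBounded K) (hc : Convex ℝ K) :
    ContinuousOn (Fst K) (interior K) := by
  have h1 := (Fst_concave hK hc).continuousOn_interior
  have h2 : ContinuousOn (fun y : E n => ‖y‖ ^ 2) (interior K) := by fun_prop
  have h3 := h1.sub h2
  refine h3.congr fun y _ => ?_
  simp

/-- minimality of `F_*` -/
theorem Fst_min (hcl : IsClosed K) (hc : Convex ℝ K) {G : E n → ℝ}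
    (hG0 : ∀ y ∈ interior K, 0 ≤ G y)
    (hG : ConcaveOn ℝ (interior K) (fun y => G y + ‖y‖ ^ 2)) {y : E n} (hy : y ∈ interior K) :
    Fst K y ≤ G y := by
  obtain ⟨a, ha⟩ := exists_supergradient isOpen_interior hG hy
  have hint : ∀ x ∈ interior K, ‖x‖ ^ 2 ≤ ⟪a, x⟫ + (G y + ‖y‖ ^ 2 - ⟪a, y⟫) := by
    intro x hx
    have h1 := ha x hx
    have h2 := hG0 x hx
    rw [inner_sub_right] at h1
    linarith
  have hcl2 : closure (interior K) = K := by
    rw [hc.closure_interior_eq_closure_of_nonempty_interior ⟨y, hy⟩, hcl.closure_eq]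
  have hmaj : ((a, G y + ‖y‖ ^ 2 - ⟪a, y⟫) : E n × ℝ) ∈ Maj K := by
    intro x hx
    rw [← hcl2] at hx
    have hclosed : IsClosed {x : E n | ‖x‖ ^ 2 ≤ ⟪a, x⟫ + (G y + ‖y‖ ^ 2 - ⟪a, y⟫)} :=
      isClosed_le (by fun_prop) (by fun_prop)
    exact closure_minimal (fun x hx => hint x hx) hclosed hx
  have := Fst_le (interior_subset hy) hmaj
  simp only at this
  linarith

/-- `F_*` is bounded on `K` -/
theorem Fst_bdd (hK : Bornology.IsBounded K) : ∃ C, ∀ y ∈ K, Fst K y ≤ C := by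
  obtain ⟨R, hR⟩ := hK.subset_closedBall 0
  have hp : ((0, R ^ 2) : E n × ℝ) ∈ Maj K := fun x hx => by
    have := hR hx
    rw [mem_closedBall_zero_iff] at this
    rw [inner_zero_left, zero_add]
    exact pow_le_pow_left₀ (norm_nonneg _) this 2
  refine ⟨R ^ 2, fun y hy => ?_⟩
  have := Fst_le hy hp
  rw [inner_zero_left] at this
  nlinarith [norm_nonneg y]

end Pool.Agent.Helper43.FU
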