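import Pool.Agent.Helper43.FU.End
import Pool.Agent.Helper23.FU.Pwf

/-!
# Module END of MP_a2630c_FU
-/

open MeasureTheory Set Metric Filter Topology
open scoped RealInnerProductSpace
open Pool.Agent.Helper16.Buoy (E IsEllipsoid)
open Pool.Agent.Helper73.LR (CB)
open Pool.Agent.Helper73.FU

namespace Pool.Agent.Helper43.FU

theorem up_eq {n : ℕ} {K : Set (E n)} (hK : CB K) {w y : E n} (hw : ‖w‖ = 1)
    (hy : y ∈ interior K) {a : ℝ} (ha : 0 < a) (hf : y + a • w ∈ frontier K) : up K w y = a := by
  have hyK := interior_subset hy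
  have h1 : y + a • w ∈ K := hK.comp.isClosed.frontier_subset hf
  refine le_antisymm ?_ (Pool.Agent.Helper23.FU.le_up hK.comp hw hyK h1)
  by_contra hlt
  push Not at hlt
  set A := up K w y with hA
  have hm : y + A • w ∈ K := Pool.Agent.Helper23.FU.up_mem hK.comp hw hyK
  have hApos : 0 < A := ha.trans hlt
  have h2 := hK.conv.add_smul_sub_mem_interior hm hy (t := 1 - a / A)
    ⟨by rw [sub_pos, div_lt_one hApos]; exact hlt, by
      have : 0 ≤ a / A := by positivity
      linarith⟩
  apply hf.2
  convert! h2 using 1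
  have : (y + A • w) + (1 - a / A) • (y - (y + A • w)) = y + (A * (a / A)) • w := by module
  rw [this, mul_div_cancel₀ _ hApos.ne']

theorem s_end : S_end := by
  intro n K F hK hF hpow
  have hcont : ContinuousOn F (interior K) := by
    by_cases h : ∃ w : E n, ‖w‖ = 1
    · obtain ⟨w, hw⟩ := h
      obtain ⟨c, hc, hcw⟩ := hpow w hw
      obtain ⟨-, -, -, h4, -⟩ := Pool.Agent.Helper23.FU.s_pwf (n := n) hK hw
      have h5 : ContinuousOn (fun y => c⁻¹ * pw K w y) (interior K) := continuousOn_const.mul h4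
      refine h5.congr fun y hy => ?_
      show F y = c⁻¹ * pw K w y
      rw [hcw y hy, inv_mul_cancel_left₀ hc.ne']
    · have hsub : Subsingleton (E n) := by
        by_contra hns
        rw [not_subsingleton_iff_nontrivial] at hns
        obtain ⟨x, hx⟩ := exists_ne (0 : E n)
        apply h
        refine ⟨‖x‖⁻¹ • x, ?_⟩
        rw [norm_smul, norm_inv, norm_norm, inv_mul_cancel₀ (norm_ne_zero_iff.2 hx)]
      exact (continuous_of_const fun x y => by rw [Subsingleton.elim x y]).continuousOn
  refine ellipsoid_of_pow hK.comp hK.conv hK.int hcont hF fun w hw => ?_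
  obtain ⟨c, hc, hcw⟩ := hpow w hw
  refine ⟨c, hc, fun y hy a b ha hb hfa hfb => ?_⟩
  have h1 := up_eq hK hw hy ha hfa
  have h2 := up_eq hK (w := -w) (by rwa [norm_neg]) hy hb
    (by rwa [smul_neg, ← sub_eq_add_neg])
  rw [← hcw y hy, pw, h1, h2]

end Pool.Agent.Helper43.FU
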